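import Mathlib
import Pool.Agent.H89.SZ6

set_option autoImplicit false

namespace Pool.Agent.Results.MP_d12f8b_an.Heights

/-- The Cantor-Bendixson derivative of order `o` of the space `K`. -/
noncomputable def cbDer (K : Type*) [TopologicalSpace K] (o : Ordinal.{0}) : Set K :=
  Ordinal.limitRecOn o Set.univ (fun _ B => derivedSet B)
    (fun o _ f => ⋂ b : Set.Iio o, f b.1 b.2)

/-- The height: least ordinal at which the Cantor-Bendixson derivative is empty. -/
noncomputable def ht (K : Type*) [TopologicalSpace K] : Ordinal.{0} :=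
  sInf {α | cbDer K α = ∅}

open Pool.Agent.H89.SZ in
theorem cbDer_eq (K : Type*) [TopologicalSpace K] [T1Space K] (o : Ordinal.{0}) :
    cbDer K o = iter cb Set.univ o := iter_derived o

open Pool.Agent.H89.SZ in
theorem result.{u, v} :
    (∀ (K : Type u) (L : Type v) [TopologicalSpace K] [CompactSpace K] [T2Space K] [Countable K]
      [TopologicalSpace L] [CompactSpace L] [T2Space L] [Countable L]
      (F : C(K, ℝ) → C(L, ℝ)) (c : NNReal), Monotone F → AntilipschitzWith c F →
        (∃ α, cbDer K α = ∅) ∧ (∃ α, cbDer L α = ∅) ∧ ht K ≤ ht L) ∧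
    ∃ (K L : Type) (_ : TopologicalSpace K) (_ : CompactSpace K) (_ : T2Space K) (_ : Countable K)
      (_ : TopologicalSpace L) (_ : CompactSpace L) (_ : T2Space L) (_ : Countable L)
      (F : C(K, ℝ) ≃ C(L, ℝ)) (c c' : NNReal),
      Monotone F ∧ LipschitzWith c F ∧ LipschitzWith c' F.symm ∧ ht K < ht L := by
  have ex : ∀ (K : Type u) [TopologicalSpace K] [CompactSpace K] [T2Space K] [Countable K],
      ∃ α, cbDer K α = ∅ := fun K _ _ _ _ => by
    simpa only [cbDer_eq] using exists_iter_empty (Y := K)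
  refine ⟨fun K L _ _ _ _ _ _ _ _ F c hm ha => ?_, KK, LL, inferInstance, inferInstance,
    inferInstance, inferInstance, inferInstance, inferInstance, inferInstance, inferInstance,
    exF, 2, 3, exF_mono, exF_lip, exF_lip', ?_⟩
  · have exL : ∃ α, cbDer L α = ∅ := by simpa only [cbDer_eq] using exists_iter_empty (Y := L)
    refine ⟨ex K, exL, csInf_le' ?_⟩
    have := totDisc (Y := K)
    have h1 : cbDer L (ht L) = ∅ := csInf_mem (s := {α | cbDer L α = ∅}) exL
    show cbDer K (ht L) = ∅
    rw [cbDer_eq] at h1 ⊢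
    refine height_le' F hm (c := 1 / (c + 1)) (by positivity) (fun u v => ?_) _ h1
    have h2 := ha.le_mul_dist u v
    rw [dist_eq_norm, dist_eq_norm] at h2
    rw [one_div, inv_mul_le_iff₀ (by positivity)]
    nlinarith [norm_nonneg (F u - F v)]
  · have h1 : ht KK ≤ 0 + 1 + 1 := csInf_le' (by
      show cbDer KK _ = ∅
      rw [cbDer_eq]; exact KK_two)
    refine h1.trans_lt ?_
    have exL : ∃ α, cbDer LL α = ∅ := by simpa only [cbDer_eq] using exists_iter_empty (Y := LL)
    have h2 : cbDer LL (ht LL) = ∅ := csInf_mem (s := {α | cbDer LL α = ∅}) exL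
    by_contra h3
    have h4 := iter_anti cb_sub _ (not_lt.1 h3) LL_two
    rw [← cbDer_eq, h2] at h4
    exact h4

end Pool.Agent.Results.MP_d12f8b_an.Heights
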