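import Mathlib
import Pool.Agent.H89.SZ4

set_option autoImplicit false

namespace Pool.Agent.Results.MP_d12f8b_an.SameSzlenk
open Topology

/-- Transfinite iteration of a set operation `D` starting from `A`, with intersections at limit
ordinals. -/
noncomputable def iter {Y : Type*} (D : Set Y → Set Y) (A : Set Y) (o : Ordinal.{0}) : Set Y :=
  Ordinal.limitRecOn o A (fun _ B => D B) (fun o _ f => ⋂ b : Set.Iio o, f b.1 b.2)

/-- The Szlenk derivation: points of `A` all of whose weak* neighbourhoods meet `A` in a set of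
norm diameter at least `ε`. -/
def sder {X : Type*} [NormedAddCommGroup X] [NormedSpace ℝ X] (ε : ℝ) (A : Set (WeakDual ℝ X)) :
    Set (WeakDual ℝ X) :=
  {x | x ∈ A ∧ ∀ U ∈ 𝓝 x, ENNReal.ofReal ε ≤ Metric.ediam (WeakDual.toStrongDual '' (U ∩ A))}

/-- The closed unit ball of the dual space. -/
def dualBall (X : Type*) [NormedAddCommGroup X] [NormedSpace ℝ X] : Set (WeakDual ℝ X) :=
  {x | ‖WeakDual.toStrongDual x‖ ≤ 1}

/-- `Sz(X, ε)`. -/
noncomputable def szE (X : Type*) [NormedAddCommGroup X] [NormedSpace ℝ X] (ε : ℝ) : Ordinal.{0} :=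
  sInf {α | iter (sder ε) (dualBall X) α = ∅}

/-- The Szlenk index `Sz(X)`. -/
noncomputable def sz (X : Type*) [NormedAddCommGroup X] [NormedSpace ℝ X] : Ordinal.{0} :=
  ⨆ ε : Set.Ioi (0 : ℝ), szE X ε.1

theorem result.{u, v, w} (K : Type u) [TopologicalSpace K] [CompactSpace K] [T2Space K]
    [Countable K] :
    (∀ (X : Type v) [NormedAddCommGroup X] [NormedSpace ℝ X] (F : C(K, ℝ) ≃ X) (c c' : NNReal),
      LipschitzWith c F → LipschitzWith c' F.symm →
        (∀ ε : ℝ, 0 < ε → ∃ α, iter (sder ε) (dualBall X) α = ∅) ∧ sz X ≤ sz C(K, ℝ)) ∧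
    (∀ (L : Type w) [TopologicalSpace L] [CompactSpace L] [T2Space L] [Countable L]
      (F : C(K, ℝ) ≃ C(L, ℝ)) (c c' : NNReal),
      LipschitzWith c F → LipschitzWith c' F.symm → sz C(K, ℝ) = sz C(L, ℝ)) := by
  refine ⟨fun X _ _ F c c' h1 h2 => ?_, fun L _ _ _ _ F c c' h1 h2 => ?_⟩
  · obtain ⟨G, C, C', H⟩ := Pool.Agent.H89.SZ.exists_BL F F.bijective h1
      (h2.to_rightInverse F.symm_apply_apply)
    exact ⟨fun ε hε => H.exists_empty hε, H.sz_le⟩
  · obtain ⟨G, C, C', H⟩ := Pool.Agent.H89.SZ.exists_BL F F.bijective h1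
      (h2.to_rightInverse F.symm_apply_apply)
    exact le_antisymm H.symm.sz_le H.sz_le

end Pool.Agent.Results.MP_d12f8b_an.SameSzlenk
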